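import Mathlib
import Pool.Agent.H83.DS.Fin

/-!
MP_838af4_lc, Q1: time-bounded Kolmogorov complexity of the members of sets in P, given a random string.

For every `A` in P and every polynomial `e` there are `c` and polynomials `p`, `r` such that for every `n` all but a
fraction `2^(-e(n))` of the strings `a` of length `r(n)` are good for all members at once: every `s ∈ A^n` has a
program of length `log |A^n| + c` which computes `s` from `n` and `a` in time `p (n + N)`, `N = ⌊2^n / |A^n|⌋`. At the
lengths `n` where `A` has density at least `1 / d(n)`, `d` a polynomial, this is the bound of Q1 for all members, with a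
random string. The same is proved for the fibres `B_x^n` of a relation `B` in P, with `x` as side input, if the members
have unique names with respect to a polynomial-time naming function `u`.
-/

set_option autoImplicit false

namespace Pool.Agent.Results.MP_838af4_lc.AllMembersRandom

open Turing Computability Pool.Agent.H72.NP Pool.Agent.H83.TK Pool.Agent.H83.DS

theorem result :
    (∃ U : BM, Universal U) ∧
    (∀ U : BM, Universal U →
      (∀ A : Set (List Bool), InP id A → ∀ e : Polynomial ℕ,
        ∃ (c : ℕ) (p r : Polynomial ℕ), ∀ n : ℕ,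
          2 ^ e.eval n * {a : List Bool | a.length = r.eval n ∧ ¬ ∀ s ∈ slice A n,
            KLE U (fun _ => p.eval (n + 2 ^ n / (slice A n).ncard)) s (pk (encodeNat n) a)
              (Real.logb 2 (slice A n).ncard + c)}.ncard ≤ 2 ^ r.eval n) ∧
      (∀ A : Set (List Bool), InP id A → ∀ d e : Polynomial ℕ,
        ∃ (c : ℕ) (p r : Polynomial ℕ), ∀ n : ℕ, 2 ^ n ≤ d.eval n * (slice A n).ncard →
          2 ^ e.eval n * {a : List Bool | a.length = r.eval n ∧ ¬ ∀ s ∈ slice A n,
            KLE U (fun k => p.eval k) s (pk (encodeNat n) a)
              (Real.logb 2 (slice A n).ncard + c)}.ncard ≤ 2 ^ r.eval n) ∧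
      (∀ B : Set (List Bool × List Bool), InP (pairEnc id) B →
        ∀ (u : (List Bool × List Bool) × ℕ → List Bool) (L : List Bool → ℕ → ℕ),
        PolyTimeFun (unEnc (pairEnc id)) id u →
        PolyTimeFun (unEnc id) id (fun z : List Bool × ℕ => List.replicate (L z.1 z.2) true) →
        ∀ e : Polynomial ℕ, ∃ (c : ℕ) (p r : Polynomial ℕ), ∀ (x : List Bool) (n : ℕ),
          (∀ s ∈ fib B x n, ∃! q : List Bool, q.length = L x n ∧ u ((q, x), n) = s) →
          2 ^ e.eval (x.length + n) * {a : List Bool | a.length = r.eval (x.length + n) ∧
            ¬ ∀ s ∈ fib B x n,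
              KLE U (fun _ => p.eval (x.length + n + 2 ^ L x n / (fib B x n).ncard)) s
                (pk (encodeNat n) (pk x a)) (Real.logb 2 (fib B x n).ncard + c)}.ncard ≤
            2 ^ r.eval (x.length + n))) :=
  ⟨exists_universal, fun _ hU => allr hU⟩

end Pool.Agent.Results.MP_838af4_lc.AllMembersRandom
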