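import Mathlib
import Pool.Agent.H83.DS.Fin
import Pool.Agent.H83.DS.Sharp

/-!
MP_838af4_lc, Q1: time-bounded Kolmogorov complexity of the members of sets in P.

For every `A` in P and every `C` all but a fraction `(n + N)^(-C)` of the members `s ∈ A^n` have a program of length
`log |A^n| + c` which computes `s` from `n` in time `p (n + N)`, where `N = ⌊2^n / |A^n|⌋`; `c` and the polynomial `p`
depend on `A` and `C` only. At the lengths `n` where `A` has density at least `1 / d(n)`, `d` a polynomial, this is the
bound of Q1. The same is proved for the fibres `B_x^n` of a relation `B` in P, with `x` as side input, if the members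
have unique names with respect to a polynomial-time naming function `u`. Limits of black-box methods (query
algorithms, `QTree`): about `N` queries are needed even for most members, and query algorithms with few possible
outputs do not reach all members of every set of a given size, even if only two bits are saved.
-/

set_option autoImplicit false

namespace Pool.Agent.Results.MP_838af4_lc.MostMembers

open Turing Computability Pool.Agent.H72.NP Pool.Agent.H83.TK Pool.Agent.H83.DS

theorem result :
    (∃ U : BM, Universal U) ∧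
    (∀ U : BM, Universal U →
      (∀ A : Set (List Bool), InP id A → ∀ C : ℕ, ∃ (c : ℕ) (p : Polynomial ℕ), ∀ n : ℕ,
        {s | s ∈ slice A n ∧ ¬ KLE U (fun _ => p.eval (n + 2 ^ n / (slice A n).ncard)) s
            (encodeNat n) (Real.logb 2 (slice A n).ncard + c)}.ncard *
          (n + 2 ^ n / (slice A n).ncard) ^ C ≤ (slice A n).ncard) ∧
      (∀ A : Set (List Bool), InP id A → ∀ (d : Polynomial ℕ) (C : ℕ),
        ∃ (c : ℕ) (p : Polynomial ℕ), ∀ n : ℕ, 2 ^ n ≤ d.eval n * (slice A n).ncard →
          {s | s ∈ slice A n ∧ ¬ KLE U (fun k => p.eval k) s (encodeNat n)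
              (Real.logb 2 (slice A n).ncard + c)}.ncard * (n + 1) ^ C ≤ (slice A n).ncard) ∧
      (∀ B : Set (List Bool × List Bool), InP (pairEnc id) B →
        ∀ (u : (List Bool × List Bool) × ℕ → List Bool) (L : List Bool → ℕ → ℕ),
        PolyTimeFun (unEnc (pairEnc id)) id u →
        PolyTimeFun (unEnc id) id (fun z : List Bool × ℕ => List.replicate (L z.1 z.2) true) →
        ∀ C : ℕ, ∃ (c : ℕ) (p : Polynomial ℕ), ∀ (x : List Bool) (n : ℕ),
          (∀ s ∈ fib B x n, ∃! q : List Bool, q.length = L x n ∧ u ((q, x), n) = s) →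
          {s | s ∈ fib B x n ∧
              ¬ KLE U (fun _ => p.eval (x.length + n + 2 ^ L x n / (fib B x n).ncard)) s
                (pk (encodeNat n) x) (Real.logb 2 (fib B x n).ncard + c)}.ncard *
            (x.length + n + 2 ^ L x n / (fib B x n).ncard) ^ C ≤ (fib B x n).ncard)) ∧
    (∀ (n S l q c : ℕ), 2 ^ l ≤ 2 ^ c * S → 2 ^ (c + 2) * ((q + 1) * S) ≤ 2 ^ n →
      ∀ T : List Bool → QTree, (∀ v, (T v).depth ≤ q) →
        ∃ A : Set (List Bool), (∀ s ∈ A, s.length = n) ∧ A.ncard = S ∧
          2 * {s | s ∈ A ∧ ∃ v : List Bool, v.length ≤ l ∧ (T v).run A = s}.ncard ≤ S) ∧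
    (∀ (n S l q r : ℕ), l + 2 ≤ n → r * q + 1 ≤ S → S ≤ 2 ^ n →
      ∀ T : List Bool → QTree, (∀ v, (T v).depth ≤ q) →
        (∀ v, {s | ∃ B : Set (List Bool), (T v).run B = s}.ncard ≤ r) →
        ∃ A : Set (List Bool), (∀ s ∈ A, s.length = n) ∧ A.ncard = S ∧
          ∃ s ∈ A, ∀ v : List Bool, v.length ≤ l → (T v).run A ≠ s) :=
  ⟨exists_universal, fun _ hU => most hU, sharp, sharp_all⟩

end Pool.Agent.Results.MP_838af4_lc.MostMembers
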