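import Mathlib
import Pool.Agent.H83.TK.Main2

/-!
MP_838af4_lc, Q1: time-bounded Kolmogorov complexity of the members of sets in P.

What is proved here about the assertion Q1.
* Upper bounds. `P = NP` implies Q1, with the constant slack that the question asks for. This comes from
  unconditional bounds `log |B_x^n| + 4` for decoders with an oracle: a `Σ₂` oracle without advice, or an
  NP oracle with an advice string of polynomial length.
* Lower bounds. Q1, even with slack `c log(n + 2)`, puts every tally language of NP in RP; for a sparse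
  language of P, Q1 (with either slack) is equivalent to P-printability; the polynomial
  `p'` must depend on the language even for slack `e log n`.
* A single language `A₀` in P, with at most `2^m` members of length `N`, `m^K ≤ N`, decides the question.
-/

set_option autoImplicit false

namespace Pool.Agent.Results.MP_838af4_lc.TwoSided

open Turing Computability Pool.Agent.H72.NP Pool.Agent.H83.TK

theorem result :
    (∃ U : BM, Universal U) ∧
    (∀ U : BM, Universal U →
      (PeqNP → Q1 U) ∧
      (Q1 U → Q1Log U) ∧
      (Q1Log U → ∀ L : List Bool → Prop,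
        InNP (id : List Bool → List Bool) L → Tally L → InRP L) ∧
      (∀ A : Set (List Bool), InP id A → Sparse A →
        (Q1For U A ↔ PPrintable A) ∧ (Q1LogFor U A ↔ PPrintable A)) ∧
      (∀ (p : Polynomial ℕ) (e : ℕ), ∃ (A : Set (List Bool)) (n₁ : ℕ), InP id A ∧
        ∀ n ≥ n₁, (slice A n).ncard = 1 ∧
          ∀ s ∈ slice A n, ¬ KLE U (fun k => p.eval k) s (encodeNat n) (e * Real.logb 2 n))) ∧
    (∀ K : ℕ, 1 ≤ K → ∃ A₀ : Set (List Bool), InP id A₀ ∧
      (∀ N, ∃ m : ℕ, m ^ K ≤ N ∧ (slice A₀ N).ncard ≤ 2 ^ m) ∧
      ∀ U : BM, Universal U → Q1For U A₀ → Q1 U) ∧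
    (∀ B : Set (List Bool × List Bool), InP (pairEnc id) B →
      ∃ (O : List Bool → Prop) (D : (List Bool × List Bool) × ℕ → List Bool),
        InSigma2 (id : List Bool → List Bool) O ∧ InFPO O (unEnc (pairEnc id)) D ∧
        ∀ (x : List Bool) (n : ℕ), ∀ s ∈ fib B x n, ∃ q : List Bool,
          (q.length : ℝ) ≤ Real.logb 2 (fib B x n).ncard + 4 ∧ D ((q, x), n) = s) ∧
    (∀ B : Set (List Bool × List Bool), InP (pairEnc id) B →
      ∃ (O : List Bool → Prop) (D : ((List Bool × List Bool) × List Bool) × ℕ → List Bool)
        (r : Polynomial ℕ),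
        InNP (id : List Bool → List Bool) O ∧ InFPO O (unEnc (pairEnc (pairEnc id))) D ∧
        ∀ (x : List Bool) (n : ℕ), ∃ a : List Bool, a.length ≤ r.eval n ∧
          ∀ s ∈ fib B x n, ∃ q : List Bool,
            (q.length : ℝ) ≤ Real.logb 2 (fib B x n).ncard + 4 ∧ D (((q, x), a), n) = s) :=
  main2

end Pool.Agent.Results.MP_838af4_lc.TwoSided
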